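import Pool.Agent.Helper74.WB.St

/-!
# Module TRA of project WB (MP_26f0da_lc): words over the path, read with heights
-/

set_option autoImplicit false

namespace Pool.Agent.Helper72.WB

open Pool.Agent.Helper74 Pool.Agent.Helper74.WB

/-- The letters given by the vertex `x` read at the height `η`. -/
private def gl (η : ℤ) (x : Fin 4) : List ((ℤ × Bool) × Bool) :=
  if x = 2 then [((η + 1, true), true)] else if x = 3 then [((η, false), false)] else []

private theorem tr_cons (η : ℤ) (x : Fin 4) (w : List (Fin 4)) :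
    tr η (x :: w) = gl η x ++ tr (η + stp4 x) w := rfl

private theorem ht_cons (x : Fin 4) (w : List (Fin 4)) : ht (x :: w) = stp4 x + ht w := by
  simp [ht]

private theorem ht_append (u v : List (Fin 4)) : ht (u ++ v) = ht u + ht v := by
  simp [ht]

private theorem tr_append (u v : List (Fin 4)) (η : ℤ) :
    tr η (u ++ v) = tr η u ++ tr (η + ht u) v := by
  induction u generalizing η with
  | nil => simp [tr, ht]
  | cons x u ih =>
    rw [List.cons_append, tr_cons, tr_cons, ih, ht_cons, List.append_assoc, add_assoc]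

private theorem adj4 (x y : Fin 4) (h : (SimpleGraph.pathGraph 4).Adj x y) :
    (x = 0 ∧ y = 1) ∨ (x = 1 ∧ y = 0) ∨ (x = 1 ∧ y = 2) ∨ (x = 2 ∧ y = 1) ∨
      (x = 2 ∧ y = 3) ∨ (x = 3 ∧ y = 2) := by
  rw [SimpleGraph.pathGraph_adj] at h
  revert h
  revert x y
  decide

private theorem s0 : stp4 0 = 1 := by decide
private theorem s1 : stp4 1 = -1 := by decide
private theorem s2 : stp4 2 = 1 := by decide
private theorem s3 : stp4 3 = -1 := by decide
private theorem g0 (η : ℤ) : gl η 0 = [] := rfl
private theorem g1 (η : ℤ) : gl η 1 = [] := rfl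
private theorem g2 (η : ℤ) : gl η 2 = [((η + 1, true), true)] := rfl
private theorem g3 (η : ℤ) : gl η 3 = [((η, false), false)] := rfl

theorem hTRA : StTRA := by
  intro w hw
  induction hw with
  | nil => exact ⟨rfl, fun η => OP.nil⟩
  | wrap x y u v hxy hu hv ihu ihv =>
    obtain ⟨hu0, hu1⟩ := ihu
    obtain ⟨hv0, hv1⟩ := ihv
    have key : ∀ η : ℤ, tr η (x :: (u ++ y :: v)) = gl η x ++ (tr (η + stp4 x) u ++
        (gl (η + stp4 x) y ++ tr (η + stp4 x + stp4 y) v)) := by
      intro η
      rw [tr_cons, tr_append, tr_cons, hu0, add_zero]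
    have hht : ht (x :: (u ++ y :: v)) = stp4 x + stp4 y := by
      rw [ht_cons, ht_append, ht_cons, hu0, hv0]
      ring
    rcases adj4 x y hxy with ⟨rfl, rfl⟩ | ⟨rfl, rfl⟩ | ⟨rfl, rfl⟩ | ⟨rfl, rfl⟩ | ⟨rfl, rfl⟩ |
      ⟨rfl, rfl⟩
    · refine ⟨by rw [hht]; decide, fun η => ?_⟩
      have e : η + 1 + -1 = η := by ring
      rw [key, s0, s1, g0, g1, e]
      simp only [List.nil_append]
      exact op_append _ _ (hu1 _) (hv1 _)
    · refine ⟨by rw [hht]; decide, fun η => ?_⟩
      have e : η + -1 + 1 = η := by ring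
      rw [key, s0, s1, g0, g1, e]
      simp only [List.nil_append]
      exact op_append _ _ (hu1 _) (hv1 _)
    · refine ⟨by rw [hht]; decide, fun η => ?_⟩
      have e : η + -1 + 1 = η := by ring
      rw [key, s2, s1, g2, g1, e]
      simp only [List.nil_append]
      exact op_append _ _ (hu1 _) (OP.skip _ _ (hv1 _))
    · refine ⟨by rw [hht]; decide, fun η => ?_⟩
      have e : η + 1 + -1 = η := by ring
      rw [key, s2, s1, g2, g1, e]
      simp only [List.nil_append]
      exact OP.skip (η + 1, true) (tr (η + 1) u ++ tr η v) (op_append _ _ (hu1 _) (hv1 _))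
    · refine ⟨by rw [hht]; decide, fun η => ?_⟩
      have e : η + 1 + -1 = η := by ring
      rw [key, s2, s3, g2, g3, e]
      exact OP.wrap (η + 1, true) true false _ _ (hu1 _) (hv1 _)
    · refine ⟨by rw [hht]; decide, fun η => ?_⟩
      have e : η + -1 + 1 = η := by ring
      rw [key, s2, s3, g2, g3, e]
      exact OP.wrap (η, false) false true _ _ (hu1 _) (hv1 _)

end Pool.Agent.Helper72.WB
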